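import Mathlib

namespace Pool.Agent.Results.MP_472e54_mp.ThreeQubitPair

open Matrix
open scoped ComplexOrder

/-- The product operator `ρ₁ ⊗ ⋯ ⊗ ρ_n` on `ℂ^{d₁} ⊗ ⋯ ⊗ ℂ^{d_n}`, written in the product
basis, which is indexed by tuples `x` with `x i ∈ Fin (d i)`. -/
def prodOp {n : ℕ} {d : Fin n → ℕ} (ρ : ∀ i, Matrix (Fin (d i)) (Fin (d i)) ℂ) :
    Matrix (∀ i, Fin (d i)) (∀ i, Fin (d i)) ℂ :=
  Matrix.of fun x y => ∏ i, ρ i (x i) (y i)

/-- Density matrices. -/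
def IsState {ι : Type*} [Fintype ι] (ρ : Matrix ι ι ℂ) : Prop :=
  ρ.PosSemidef ∧ ρ.trace = 1

/-- Separable states: the convex hull of the product states. -/
def IsSeparable {n : ℕ} {d : Fin n → ℕ} (σ : Matrix (∀ i, Fin (d i)) (∀ i, Fin (d i)) ℂ) : Prop :=
  σ ∈ convexHull ℝ {τ : Matrix (∀ i, Fin (d i)) (∀ i, Fin (d i)) ℂ |
    ∃ ρ : ∀ i, Matrix (Fin (d i)) (Fin (d i)) ℂ, (∀ i, IsState (ρ i)) ∧ τ = prodOp ρ}

/-- Entanglement witnesses. -/
def IsEW {n : ℕ} {d : Fin n → ℕ} (W : Matrix (∀ i, Fin (d i)) (∀ i, Fin (d i)) ℂ) : Prop :=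
  W.IsHermitian ∧ (∀ σ, IsSeparable σ → 0 ≤ ((W * σ).trace).re) ∧
    ∃ ρ, IsState ρ ∧ ((W * ρ).trace).re < 0

/-- Optimal entanglement witnesses: no nonzero positive semidefinite operator, however small,
can be subtracted. -/
def IsOptimalEW {n : ℕ} {d : Fin n → ℕ} (W : Matrix (∀ i, Fin (d i)) (∀ i, Fin (d i)) ℂ) : Prop :=
  IsEW W ∧ ¬ ∃ ε : ℝ, 0 < ε ∧ ∃ P : Matrix (∀ i, Fin (d i)) (∀ i, Fin (d i)) ℂ,
    P.PosSemidef ∧ P ≠ 0 ∧ IsEW (W - ε • P)

/-- `M = L W L†` for a local unitary `L = U₁ ⊗ ⋯ ⊗ U_n`. -/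
def LocallyUnitarilyRelated {n : ℕ} {d : Fin n → ℕ}
    (W M : Matrix (∀ i, Fin (d i)) (∀ i, Fin (d i)) ℂ) : Prop :=
  ∃ U : ∀ i, Matrix (Fin (d i)) (Fin (d i)) ℂ, (∀ i, U i ∈ Matrix.unitaryGroup (Fin (d i)) ℂ) ∧
    M = prodOp U * W * (prodOp U)ᴴ

section general

variable {n : ℕ} {d : Fin n → ℕ}

lemma prodOp_mul (a b : ∀ i, Matrix (Fin (d i)) (Fin (d i)) ℂ) :
    prodOp a * prodOp b = prodOp (fun i => a i * b i) := by
  ext x y
  simp only [prodOp, Matrix.mul_apply, Matrix.of_apply]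
  rw [Finset.prod_univ_sum]
  simp [Finset.prod_mul_distrib]

lemma trace_prodOp (a : ∀ i, Matrix (Fin (d i)) (Fin (d i)) ℂ) :
    (prodOp a).trace = ∏ i, (a i).trace := by
  simp only [prodOp, Matrix.trace, Matrix.diag, Matrix.of_apply]
  rw [Finset.prod_univ_sum]
  simp

lemma prodOp_one : (prodOp (fun _ => 1) : Matrix (∀ i, Fin (d i)) (∀ i, Fin (d i)) ℂ) = 1 := by
  ext x y
  simp only [prodOp, Matrix.of_apply]
  by_cases h : x = y
  · subst h; simp
  · rw [Matrix.one_apply_ne h]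
    obtain ⟨i, hi⟩ := Function.ne_iff.mp h
    exact Finset.prod_eq_zero (Finset.mem_univ i) (Matrix.one_apply_ne hi)

lemma prodOp_conjTranspose (a : ∀ i, Matrix (Fin (d i)) (Fin (d i)) ℂ) :
    (prodOp a)ᴴ = prodOp (fun i => (a i)ᴴ) := by
  ext x y
  simp only [prodOp, Matrix.of_apply, Matrix.conjTranspose_apply, star_prod]

lemma prodOp_herm (a : ∀ i, Matrix (Fin (d i)) (Fin (d i)) ℂ) (h : ∀ i, (a i).IsHermitian) :
    (prodOp a).IsHermitian := by
  unfold Matrix.IsHermitian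
  rw [prodOp_conjTranspose]
  congr 1
  funext i
  exact (h i).eq

lemma unitary_prod (U : ∀ i, Matrix (Fin (d i)) (Fin (d i)) ℂ)
    (hU : ∀ i, U i ∈ Matrix.unitaryGroup (Fin (d i)) ℂ) : (prodOp U)ᴴ * prodOp U = 1 := by
  rw [prodOp_conjTranspose, prodOp_mul, ← prodOp_one]
  congr 1
  funext i
  exact (Matrix.mem_unitaryGroup_iff'.mp (hU i))

end general

section example3

/-- three qubits -/
abbrev D3 : Fin 3 → ℕ := fun _ => 2

/-- operators on three qubits -/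
abbrev Op := Matrix (∀ i : Fin 3, Fin (D3 i)) (∀ i : Fin 3, Fin (D3 i)) ℂ

/-- Pauli matrix `X` -/
def pX : Matrix (Fin 2) (Fin 2) ℂ := !![0, 1; 1, 0]
/-- Pauli matrix `Y` -/
def pY : Matrix (Fin 2) (Fin 2) ℂ := !![0, -Complex.I; Complex.I, 0]
/-- Pauli matrix `Z` -/
def pZ : Matrix (Fin 2) (Fin 2) ℂ := !![1, 0; 0, -1]

/-- triple product operator -/
def P3 (a b c : Matrix (Fin 2) (Fin 2) ℂ) : Op := prodOp (d := D3) (fun i => ![a, b, c] i)

lemma P3_mul (a b c a' b' c' : Matrix (Fin 2) (Fin 2) ℂ) :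
    P3 a b c * P3 a' b' c' = P3 (a * a') (b * b') (c * c') := by
  rw [P3, P3, prodOp_mul, P3]
  congr 1
  funext i
  fin_cases i <;> rfl

lemma trace_P3 (a b c : Matrix (Fin 2) (Fin 2) ℂ) :
    (P3 a b c).trace = a.trace * b.trace * c.trace := by
  rw [P3, trace_prodOp, Fin.prod_univ_three]
  rfl

lemma P3_one : P3 1 1 1 = 1 := by
  rw [P3, ← prodOp_one]
  congr 1
  funext i
  fin_cases i <;> rfl

lemma P3_herm {a b c : Matrix (Fin 2) (Fin 2) ℂ} (ha : a.IsHermitian) (hb : b.IsHermitian)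
    (hc : c.IsHermitian) : (P3 a b c).IsHermitian := by
  apply prodOp_herm
  intro i
  fin_cases i
  · exact ha
  · exact hb
  · exact hc

lemma P3_apply (a b c : Matrix (Fin 2) (Fin 2) ℂ) (x y : ∀ i : Fin 3, Fin (D3 i)) :
    P3 a b c x y = a (x 0) (y 0) * b (x 1) (y 1) * c (x 2) (y 2) := by
  rw [P3, prodOp, Matrix.of_apply, Fin.prod_univ_three]
  rfl

lemma prodOp_eq_P3 (ρ : ∀ i : Fin 3, Matrix (Fin (D3 i)) (Fin (D3 i)) ℂ) :
    prodOp ρ = P3 (ρ 0) (ρ 1) (ρ 2) := by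
  rw [P3]
  congr 1
  funext i
  fin_cases i <;> rfl

lemma pX_herm : pX.IsHermitian := by
  ext i j; fin_cases i <;> fin_cases j <;> simp [pX, Matrix.conjTranspose_apply]
lemma pY_herm : pY.IsHermitian := by
  ext i j; fin_cases i <;> fin_cases j <;> simp [pY, Matrix.conjTranspose_apply]
lemma pZ_herm : pZ.IsHermitian := by
  ext i j; fin_cases i <;> fin_cases j <;> simp [pZ, Matrix.conjTranspose_apply]

lemma pX_sq : pX * pX = 1 := by
  ext i j; fin_cases i <;> fin_cases j <;> simp [pX, Matrix.mul_apply, Fin.sum_univ_two]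
lemma pY_sq : pY * pY = 1 := by
  ext i j; fin_cases i <;> fin_cases j <;> simp [pY, Matrix.mul_apply, Fin.sum_univ_two]
lemma pZ_sq : pZ * pZ = 1 := by
  ext i j; fin_cases i <;> fin_cases j <;> simp [pZ, Matrix.mul_apply, Fin.sum_univ_two]
lemma pYX : pY * pX = -(pX * pY) := by
  ext i j; fin_cases i <;> fin_cases j <;> simp [pX, pY, Matrix.mul_apply, Fin.sum_univ_two]
lemma pZX : pZ * pX = -(pX * pZ) := by
  ext i j; fin_cases i <;> fin_cases j <;> simp [pX, pZ, Matrix.mul_apply, Fin.sum_univ_two]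
lemma pZY : pZ * pY = -(pY * pZ) := by
  ext i j; fin_cases i <;> fin_cases j <;> simp [pZ, pY, Matrix.mul_apply, Fin.sum_univ_two]

lemma tr1 : (1 : Matrix (Fin 2) (Fin 2) ℂ).trace = 2 := by simp
lemma trX : pX.trace = 0 := by simp [pX, Matrix.trace, Fin.sum_univ_two]
lemma trY : pY.trace = 0 := by simp [pY, Matrix.trace, Fin.sum_univ_two]
lemma trZ : pZ.trace = 0 := by simp [pZ, Matrix.trace, Fin.sum_univ_two]
lemma trXY : (pX * pY).trace = 0 := by
  simp [pX, pY, Matrix.trace, Matrix.mul_apply, Fin.sum_univ_two]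
lemma trYX : (pY * pX).trace = 0 := by
  simp [pX, pY, Matrix.trace, Matrix.mul_apply, Fin.sum_univ_two]
lemma trZX : (pZ * pX).trace = 0 := by
  simp [pX, pZ, Matrix.trace, Matrix.mul_apply, Fin.sum_univ_two]
lemma trZY : (pZ * pY).trace = 0 := by
  simp [pZ, pY, Matrix.trace, Matrix.mul_apply, Fin.sum_univ_two]

/-- `B = XXX + YYY` -/
noncomputable def B : Op := P3 pX pX pX + P3 pY pY pY
/-- `D = (ZZ1 + 1ZZ + Z1Z)/3` -/
noncomputable def Dg : Op := (1 / 3 : ℂ) • (P3 pZ pZ 1 + P3 1 pZ pZ + P3 pZ 1 pZ)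
/-- `A = B + D` -/
noncomputable def A : Op := B + Dg

lemma P3_neg1 (a b c : Matrix (Fin 2) (Fin 2) ℂ) : P3 (-a) b c = -P3 a b c := by
  ext x y; simp [P3_apply]
lemma P3_neg2 (a b c : Matrix (Fin 2) (Fin 2) ℂ) : P3 a (-b) c = -P3 a b c := by
  ext x y; simp [P3_apply]
lemma P3_neg3 (a b c : Matrix (Fin 2) (Fin 2) ℂ) : P3 a b (-c) = -P3 a b c := by
  ext x y; simp [P3_apply]

lemma B_sq : B * B = 2 := by
  have h2 : (2 : Op) = 1 + 1 := by norm_num
  rw [B, add_mul, mul_add, mul_add, P3_mul, P3_mul, P3_mul, P3_mul, pYX, P3_neg1, P3_neg2, P3_neg3,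
    pX_sq, pY_sq, P3_one, h2]
  abel

lemma Dg_sq : Dg * Dg = (1 / 3 : ℂ) • (1 : Op) + (2 / 3 : ℂ) • Dg := by
  simp only [Dg, smul_mul_assoc, mul_smul_comm, add_mul, mul_add, P3_mul, pZ_sq, one_mul, mul_one,
    P3_one]
  ext x y
  simp only [Matrix.smul_apply, Matrix.add_apply, smul_eq_mul]
  ring

lemma comm_BD : Dg * B = B * Dg := by
  simp only [Dg, B, smul_mul_assoc, mul_smul_comm, add_mul, mul_add, P3_mul, one_mul, mul_one,
    pZX, pZY, P3_neg1, P3_neg2, P3_neg3, neg_neg]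
  ext x y
  simp only [Matrix.smul_apply, Matrix.add_apply, smul_eq_mul]
  ring

lemma trB : B.trace = 0 := by
  simp [B, trace_P3, trX, trY]
lemma trD : Dg.trace = 0 := by
  simp [Dg, trace_P3, trZ]
lemma trBD : (B * Dg).trace = 0 := by
  rw [← comm_BD]
  simp [B, Dg, add_mul, mul_add, P3_mul, trace_P3, trX, trY, trZX, trZY]

lemma trOne : (1 : Op).trace = 8 := by
  rw [← P3_one, trace_P3, tr1]; norm_num

lemma trA : A.trace = 0 := by
  rw [A, Matrix.trace_add, trB, trD, add_zero]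

lemma A_cube : (A * A * A).trace = 16 / 9 := by
  have h : A * A = (7 / 3 : ℂ) • (1 : Op) + (2 : ℂ) • (B * Dg) + (2 / 3 : ℂ) • Dg := by
    rw [A, add_mul, mul_add, mul_add, B_sq, Dg_sq, comm_BD]
    have : (2 : Op) = (2 : ℂ) • (1 : Op) := by
      rw [← one_add_one_eq_two, ← one_add_one_eq_two, add_smul, one_smul]
    rw [this]
    ext x y
    simp only [Matrix.smul_apply, Matrix.add_apply, smul_eq_mul]
    ring
  have hBBD : B * Dg * B = (2 : ℂ) • Dg := by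
    rw [mul_assoc, comm_BD, ← mul_assoc, B_sq]
    have : (2 : Op) = (2 : ℂ) • (1 : Op) := by
      rw [← one_add_one_eq_two, ← one_add_one_eq_two, add_smul, one_smul]
    rw [this, smul_mul_assoc, one_mul]
  have hBDD : B * Dg * Dg = (1 / 3 : ℂ) • B + (2 / 3 : ℂ) • (B * Dg) := by
    rw [mul_assoc, Dg_sq, mul_add, mul_smul_comm, mul_smul_comm, mul_one]
  rw [h, A]
  simp only [add_mul, mul_add, smul_mul_assoc, one_mul, hBBD, hBDD, comm_BD, Dg_sq,
    Matrix.trace_add, Matrix.trace_smul, trB, trD, trBD, trOne, smul_eq_mul, smul_add]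
  norm_num


lemma trace_mul_two (M ρ : Matrix (Fin 2) (Fin 2) ℂ) :
    (M * ρ).trace = M 0 0 * ρ 0 0 + M 0 1 * ρ 1 0 + (M 1 0 * ρ 0 1 + M 1 1 * ρ 1 1) := by
  rw [Matrix.trace_fin_two, Matrix.mul_apply, Matrix.mul_apply, Fin.sum_univ_two, Fin.sum_univ_two]

/-- Bloch vector of a qubit state -/
lemma bloch {ρ : Matrix (Fin 2) (Fin 2) ℂ} (h : IsState ρ) :
    ∃ x y z : ℝ, (pX * ρ).trace = x ∧ (pY * ρ).trace = y ∧ (pZ * ρ).trace = z ∧
      x ^ 2 + y ^ 2 + z ^ 2 ≤ 1 := by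
  obtain ⟨hp, ht⟩ := h
  have hH := hp.isHermitian
  have h00 : (ρ 0 0).im = 0 := by
    have := congrArg Complex.im (hH.apply 0 0)
    simp at this; linarith
  have h11 : (ρ 1 1).im = 0 := by
    have := congrArg Complex.im (hH.apply 1 1)
    simp at this; linarith
  have h10 : ρ 1 0 = star (ρ 0 1) := (hH.apply 1 0).symm
  have hdet := hp.det_nonneg
  rw [Matrix.det_fin_two, h10] at hdet
  have htr : (ρ 0 0).re + (ρ 1 1).re = 1 := by
    have := congrArg Complex.re ht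
    simpa [Matrix.trace, Fin.sum_univ_two] using this
  have hd : 0 ≤ (ρ 0 0).re * (ρ 1 1).re - ((ρ 0 1).re ^ 2 + (ρ 0 1).im ^ 2) := by
    have := (Complex.le_def.mp hdet).1
    simp [h00, h11] at this
    nlinarith
  refine ⟨2 * (ρ 0 1).re, -2 * (ρ 0 1).im, (ρ 0 0).re - (ρ 1 1).re, ?_, ?_, ?_, ?_⟩
  · rw [trace_mul_two]
    apply Complex.ext <;> simp [pX, h10] <;> ring
  · rw [trace_mul_two]
    apply Complex.ext <;> simp [pY, h10] <;> ring
  · rw [trace_mul_two]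
    apply Complex.ext <;> simp [pZ, h00, h11] <;> ring
  · nlinarith

lemma pair_bound {x y z x' y' z' : ℝ} (h : x ^ 2 + y ^ 2 + z ^ 2 ≤ 1)
    (h' : x' ^ 2 + y' ^ 2 + z' ^ 2 ≤ 1) : |x * x'| + |y * y'| + |z * z'| ≤ 1 := by
  have a : ∀ u v : ℝ, |u * v| ≤ (u ^ 2 + v ^ 2) / 2 := by
    intro u v
    rw [abs_le]
    constructor
    · nlinarith [sq_nonneg (u + v)]
    · nlinarith [sq_nonneg (u - v)]
  have := a x x'
  have := a y y'
  have := a z z'
  linarith

lemma triple_bound {x y z x' y' z' x'' y'' z'' : ℝ} (h : x ^ 2 + y ^ 2 + z ^ 2 ≤ 1)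
    (h' : x' ^ 2 + y' ^ 2 + z' ^ 2 ≤ 1) (h'' : x'' ^ 2 + y'' ^ 2 + z'' ^ 2 ≤ 1) :
    |x * x' * x'' + y * y' * y'' + 1 / 3 * (z * z' + z' * z'' + z * z'')| ≤ 1 := by
  have b1 := pair_bound h h'
  have b2 := pair_bound h' h''
  have b3 := pair_bound h h''
  have ab : ∀ {a b c : ℝ}, a ^ 2 + b ^ 2 + c ^ 2 ≤ 1 → |a| ≤ 1 := by
    intro a b c h
    rw [abs_le]
    constructor <;> nlinarith [sq_nonneg b, sq_nonneg c, sq_nonneg (a - 1), sq_nonneg (a + 1)]
  have t : ∀ {a b c : ℝ}, |a| ≤ 1 → |b| ≤ 1 → |c| ≤ 1 →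
      |a * b * c| ≤ 1 / 3 * (|a * b| + |b * c| + |a * c|) := by
    intro a b c ha hb hc
    have e1 : |a * b * c| ≤ |a * b| := by
      rw [abs_mul]; exact mul_le_of_le_one_right (abs_nonneg _) hc
    have e2 : |a * b * c| ≤ |b * c| := by
      rw [mul_assoc, abs_mul]; exact mul_le_of_le_one_left (abs_nonneg _) ha
    have e3 : |a * b * c| ≤ |a * c| := by
      rw [mul_right_comm, abs_mul]; exact mul_le_of_le_one_right (abs_nonneg _) hb
    linarith
  have hx := t (ab h) (ab h') (ab h'')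
  have hy := t (ab (b := x) (c := z) (a := y) (by linarith))
    (ab (b := x') (c := z') (a := y') (by linarith)) (ab (b := x'') (c := z'') (a := y'') (by linarith))
  have hz : |1 / 3 * (z * z' + z' * z'' + z * z'')| ≤
      1 / 3 * (|z * z'| + |z' * z''| + |z * z''|) := by
    rw [abs_mul, abs_of_pos (by norm_num : (0:ℝ) < 1 / 3)]
    have := abs_add_three (z * z') (z' * z'') (z * z'')
    linarith
  have := abs_add_three (x * x' * x'') (y * y' * y'') (1 / 3 * (z * z' + z' * z'' + z * z''))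
  linarith

lemma A_prod {ρ : ∀ i : Fin 3, Matrix (Fin (D3 i)) (Fin (D3 i)) ℂ} (h : ∀ i, IsState (ρ i)) :
    |((A * prodOp ρ).trace).re| ≤ 1 := by
  rw [prodOp_eq_P3]
  obtain ⟨x0, y0, z0, hx0, hy0, hz0, hb0⟩ := bloch (h 0)
  obtain ⟨x1, y1, z1, hx1, hy1, hz1, hb1⟩ := bloch (h 1)
  obtain ⟨x2, y2, z2, hx2, hy2, hz2, hb2⟩ := bloch (h 2)
  have t0 : (ρ 0).trace = 1 := (h 0).2
  have t1 : (ρ 1).trace = 1 := (h 1).2
  have t2 : (ρ 2).trace = 1 := (h 2).2
  have e : (A * P3 (ρ 0) (ρ 1) (ρ 2)).trace =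
      ((x0 * x1 * x2 + y0 * y1 * y2 + 1 / 3 * (z0 * z1 + z1 * z2 + z0 * z2) : ℝ) : ℂ) := by
    simp only [A, B, Dg, add_mul, smul_mul_assoc, P3_mul, Matrix.trace_add, Matrix.trace_smul,
      trace_P3, one_mul, smul_eq_mul]
    simp only [D3] at hx0 hy0 hz0 hx1 hy1 hz1 hx2 hy2 hz2 t0 t1 t2
    rw [hx0, hy0, hz0, hx1, hy1, hz1, hx2, hy2, hz2, t0, t1, t2]
    push_cast
    ring
  rw [e, Complex.ofReal_re]
  exact triple_bound hb0 hb1 hb2

lemma trace_mul_re_sep {W : Op} (h : ∀ ρ : ∀ i : Fin 3, Matrix (Fin (D3 i)) (Fin (D3 i)) ℂ,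
    (∀ i, IsState (ρ i)) → 0 ≤ ((W * prodOp ρ).trace).re) :
    ∀ σ : Op, IsSeparable σ → 0 ≤ ((W * σ).trace).re := by
  intro σ hσ
  have hc : Convex ℝ {σ : Op | 0 ≤ ((W * σ).trace).re} := by
    intro a ha b hb s t hs ht hst
    change 0 ≤ ((W * a).trace).re at ha
    change 0 ≤ ((W * b).trace).re at hb
    change 0 ≤ ((W * (s • a + t • b)).trace).re
    rw [mul_add, mul_smul_comm, mul_smul_comm, Matrix.trace_add, Matrix.trace_smul,
      Matrix.trace_smul]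
    simp only [Complex.add_re, Complex.real_smul, Complex.mul_re, Complex.ofReal_re,
      Complex.ofReal_im, zero_mul, sub_zero]
    positivity
  have : σ ∈ {σ : Op | 0 ≤ ((W * σ).trace).re} := by
    refine convexHull_min ?_ hc hσ
    rintro τ ⟨ρ, hρ, rfl⟩
    exact h ρ hρ
  exact this

lemma prod_trace_one {ρ : ∀ i : Fin 3, Matrix (Fin (D3 i)) (Fin (D3 i)) ℂ}
    (h : ∀ i, IsState (ρ i)) : (prodOp ρ).trace = 1 := by
  rw [trace_prodOp]
  exact Finset.prod_eq_one fun i _ => (h i).2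

lemma sep_one_sub (σ : Op) (hσ : IsSeparable σ) : 0 ≤ (((1 - A) * σ).trace).re := by
  refine trace_mul_re_sep ?_ σ hσ
  intro ρ hρ
  rw [sub_mul, one_mul, Matrix.trace_sub, Complex.sub_re, prod_trace_one hρ]
  have := abs_le.mp (A_prod hρ)
  simp only [Complex.one_re]
  linarith

lemma sep_one_add (σ : Op) (hσ : IsSeparable σ) : 0 ≤ (((1 + A) * σ).trace).re := by
  refine trace_mul_re_sep ?_ σ hσ
  intro ρ hρ
  rw [add_mul, one_mul, Matrix.trace_add, Complex.add_re, prod_trace_one hρ]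
  have := abs_le.mp (A_prod hρ)
  simp only [Complex.one_re]
  linarith


/-- the eigenstate-type state `(1 + aQ)/2` -/
noncomputable def tau (Q : Matrix (Fin 2) (Fin 2) ℂ) (a : ℂ) : Matrix (Fin 2) (Fin 2) ℂ :=
  (1 / 2 : ℂ) • (1 + a • Q)

lemma tau_state {Q : Matrix (Fin 2) (Fin 2) ℂ} (hQ : Q.IsHermitian) (hsq : Q * Q = 1)
    (htr : Q.trace = 0) {a : ℂ} (ha : a = 1 ∨ a = -1) : IsState (tau Q a) := by
  have hh : (tau Q a)ᴴ = tau Q a := by
    rw [tau, Matrix.conjTranspose_smul, Matrix.conjTranspose_add, Matrix.conjTranspose_smul,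
      Matrix.conjTranspose_one, hQ.eq]
    rcases ha with rfl | rfl <;> simp
  have hm : tau Q a * tau Q a = tau Q a := by
    rw [tau]
    simp only [smul_mul_assoc, mul_smul_comm, add_mul, mul_add, hsq, one_mul, mul_one]
    ext i j
    simp only [Matrix.smul_apply, Matrix.add_apply, smul_eq_mul]
    rcases ha with rfl | rfl <;> ring
  constructor
  · rw [← hm]
    nth_rewrite 1 [← hh]
    exact Matrix.posSemidef_conjTranspose_mul_self _
  · rw [tau, Matrix.trace_smul, Matrix.trace_add, Matrix.trace_smul, htr, tr1]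
    simp

lemma sep_P3 {a b c : Matrix (Fin 2) (Fin 2) ℂ} (ha : IsState a) (hb : IsState b)
    (hc : IsState c) : IsSeparable (P3 a b c) := by
  apply subset_convexHull
  refine ⟨fun i => ![a, b, c] i, ?_, rfl⟩
  intro i
  fin_cases i
  · exact ha
  · exact hb
  · exact hc

lemma sep_mid {a b : Op} (ha : IsSeparable a) (hb : IsSeparable b) :
    IsSeparable ((1 / 2 : ℝ) • a + (1 / 2 : ℝ) • b) :=
  (convex_convexHull ℝ _) ha hb (by norm_num) (by norm_num) (by norm_num)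

lemma sep_Q {Q : Matrix (Fin 2) (Fin 2) ℂ} (hQ : Q.IsHermitian) (hsq : Q * Q = 1)
    (htr : Q.trace = 0) {s : ℂ} (hs : s = 1 ∨ s = -1) :
    IsSeparable ((1 / 8 : ℂ) • (1 + s • P3 Q Q Q)) := by
  have hs' : -s = 1 ∨ -s = -1 := by rcases hs with rfl | rfl <;> simp
  have h1 := tau_state hQ hsq htr hs
  have h2 := tau_state hQ hsq htr hs'
  have h := sep_mid (sep_mid (sep_P3 h1 h1 h1) (sep_P3 h1 h2 h2))
    (sep_mid (sep_P3 h2 h1 h2) (sep_P3 h2 h2 h1))
  convert h using 1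
  rw [← P3_one]
  ext x y
  simp only [Matrix.smul_apply, Matrix.add_apply, P3_apply, smul_eq_mul, tau, Complex.real_smul]
  push_cast
  rcases hs with rfl | rfl <;> ring

/-- The separable state `(2 + sB)/16`. -/
noncomputable def sig (s : ℂ) : Op := (1 / 16 : ℂ) • ((2 : ℂ) • (1 : Op) + s • B)

lemma sep_sig {s : ℂ} (hs : s = 1 ∨ s = -1) : IsSeparable (sig s) := by
  have h := sep_mid (sep_Q pX_herm pX_sq trX hs) (sep_Q pY_herm pY_sq trY hs)
  convert h using 1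
  ext x y
  simp only [sig, B, Matrix.smul_apply, Matrix.add_apply, smul_eq_mul, Complex.real_smul]
  push_cast
  ring

lemma two_smul_one : (2 : Op) = (2 : ℂ) • (1 : Op) := by
  rw [← one_add_one_eq_two, ← one_add_one_eq_two, add_smul, one_smul]

lemma tr_W_sig {s : ℂ} (hs : s = 1 ∨ s = -1) : ((1 - s • A) * sig s).trace = 0 := by
  have hss : s * s = 1 := by rcases hs with rfl | rfl <;> norm_num
  have h : ((1 - s • A) * sig s).trace =
      (1 / 16 : ℂ) * (2 * 8 + s * 0 - (2 * (s * 0) + s * s * (2 * 8 + 0))) := by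
    rw [sig, A, mul_smul_comm, Matrix.trace_smul, sub_mul, Matrix.trace_sub, one_mul,
      Matrix.trace_add, Matrix.trace_smul, Matrix.trace_smul, trB, trOne, mul_add,
      Matrix.trace_add, mul_smul_comm, mul_one, Matrix.trace_smul, Matrix.trace_smul,
      Matrix.trace_add, trB, trD, smul_mul_smul_comm, Matrix.trace_smul, add_mul,
      Matrix.trace_add, B_sq, comm_BD, trBD, two_smul_one, Matrix.trace_smul, trOne]
    simp only [smul_eq_mul]
    ring
  rw [h, hss]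
  norm_num

lemma B_herm : Bᴴ = B := by
  rw [B, Matrix.conjTranspose_add, (P3_herm pX_herm pX_herm pX_herm).eq,
    (P3_herm pY_herm pY_herm pY_herm).eq]

lemma one_herm2 : (1 : Matrix (Fin 2) (Fin 2) ℂ).IsHermitian := Matrix.isHermitian_one

lemma D_herm : Dgᴴ = Dg := by
  rw [Dg, Matrix.conjTranspose_smul, Matrix.conjTranspose_add, Matrix.conjTranspose_add,
    (P3_herm pZ_herm pZ_herm one_herm2).eq, (P3_herm one_herm2 pZ_herm pZ_herm).eq,
    (P3_herm pZ_herm one_herm2 pZ_herm).eq]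
  simp

lemma A_herm : Aᴴ = A := by
  rw [A, Matrix.conjTranspose_add, B_herm, D_herm]

lemma tr_P_sig {s : ℂ} (hs : s = 1 ∨ s = -1) {P : Op} (hP : P.PosSemidef) (h0 : P ≠ 0) :
    0 < ((P * sig s).trace).re := by
  have hss : s * s = 1 := by rcases hs with rfl | rfl <;> norm_num
  have hst : star s = s := by rcases hs with rfl | rfl <;> simp
  set H : Op := 1 + (s / 2) • B with hH
  have hHH : Hᴴ = H := by
    rw [hH, Matrix.conjTranspose_add, Matrix.conjTranspose_smul, Matrix.conjTranspose_one, B_herm]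
    congr 2
    rcases hs with rfl | rfl <;> simp
  have hsq : (2 : ℂ) • (1 : Op) + s • B = (1 / 2 : ℂ) • (1 : Op) + H * H := by
    have e : H * H = (1 : Op) + s • B + (s * s / 4) • (B * B) := by
      rw [hH]
      simp only [smul_mul_assoc, mul_smul_comm, add_mul, mul_add, one_mul, mul_one]
      ext x y
      simp only [Matrix.smul_apply, Matrix.add_apply, smul_eq_mul]
      ring
    rw [e, hss, B_sq, two_smul_one]
    ext x y
    simp only [Matrix.smul_apply, Matrix.add_apply, smul_eq_mul]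
    ring
  have e : (P * sig s).trace = (1 / 16 : ℂ) * ((1 / 2 : ℂ) * P.trace + (H * P * Hᴴ).trace) := by
    rw [sig, hsq, mul_smul_comm, Matrix.trace_smul, mul_add, Matrix.trace_add, mul_smul_comm,
      Matrix.trace_smul, mul_one, hHH, ← mul_assoc, Matrix.trace_mul_comm (P * H) H, mul_assoc]
    simp only [smul_eq_mul]
  have h1 : 0 ≤ (H * P * Hᴴ).trace := (hP.mul_mul_conjTranspose_same H).trace_nonneg
  have h2 : 0 < P.trace := by
    refine lt_of_le_of_ne hP.trace_nonneg ?_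
    intro h
    exact h0 ((hP.trace_eq_zero_iff).mp h.symm)
  rw [e]
  have h1' := (Complex.le_def.mp h1).1
  have h2' := (Complex.lt_def.mp h2).1
  simp only [Complex.zero_re] at h1' h2'
  have : ((1 / 16 : ℂ) * ((1 / 2 : ℂ) * P.trace + (H * P * Hᴴ).trace)).re =
      1 / 16 * (1 / 2 * P.trace.re + (H * P * Hᴴ).trace.re) := by
    have : (1 / 16 : ℂ) * ((1 / 2 : ℂ) * P.trace + (H * P * Hᴴ).trace) =
      ((1 / 16 : ℝ) : ℂ) * (((1 / 2 : ℝ) : ℂ) * P.trace + (H * P * Hᴴ).trace) := by push_cast; rfl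
    rw [this, Complex.re_ofReal_mul, Complex.add_re, Complex.re_ofReal_mul]
  rw [this]
  positivity

lemma opt_of_ew {s : ℂ} (hs : s = 1 ∨ s = -1) (h : IsEW (1 - s • A : Op)) :
    IsOptimalEW (1 - s • A : Op) := by
  refine ⟨h, ?_⟩
  rintro ⟨ε, hε, P, hP, h0, hE⟩
  have h1 := hE.2.1 (sig s) (sep_sig hs)
  rw [sub_mul, Matrix.trace_sub, tr_W_sig hs, smul_mul_assoc, Matrix.trace_smul,
    Complex.sub_re, Complex.real_smul, Complex.re_ofReal_mul] at h1
  have h2 := tr_P_sig hs hP h0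
  have h3 : 0 < ε * ((P * sig s).trace).re := mul_pos hε h2
  simp only [Complex.zero_re] at h1
  linarith


/-- elementary 2x2 matrices -/
def E00 : Matrix (Fin 2) (Fin 2) ℂ := !![1, 0; 0, 0]
/-- elementary 2x2 matrices -/
def E01 : Matrix (Fin 2) (Fin 2) ℂ := !![0, 1; 0, 0]
/-- elementary 2x2 matrices -/
def E10 : Matrix (Fin 2) (Fin 2) ℂ := !![0, 0; 1, 0]
/-- elementary 2x2 matrices -/
def E11 : Matrix (Fin 2) (Fin 2) ℂ := !![0, 0; 0, 1]

lemma trE (M : Matrix (Fin 2) (Fin 2) ℂ) : (M * E00).trace = M 0 0 ∧ (M * E01).trace = M 1 0 ∧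
    (M * E10).trace = M 0 1 ∧ (M * E11).trace = M 1 1 := by
  refine ⟨?_, ?_, ?_, ?_⟩ <;> rw [trace_mul_two] <;> simp [E00, E01, E10, E11]

lemma trE' : E00.trace = 1 ∧ E01.trace = 0 ∧ E10.trace = 0 ∧ E11.trace = 1 := by
  refine ⟨?_, ?_, ?_, ?_⟩ <;> rw [Matrix.trace_fin_two] <;> simp [E00, E01, E10, E11]

lemma trA_P3 (a b c : Matrix (Fin 2) (Fin 2) ℂ) : (A * P3 a b c).trace =
    (pX * a).trace * (pX * b).trace * (pX * c).trace +
    (pY * a).trace * (pY * b).trace * (pY * c).trace +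
    1 / 3 * ((pZ * a).trace * (pZ * b).trace * c.trace +
      a.trace * (pZ * b).trace * (pZ * c).trace + (pZ * a).trace * b.trace * (pZ * c).trace) := by
  simp only [A, B, Dg, add_mul, smul_mul_assoc, P3_mul, Matrix.trace_add, Matrix.trace_smul,
      trace_P3, one_mul, smul_eq_mul]

/-- first vector, as the operator `|v⟩⟨000|` -/
noncomputable def R1 : Op := P3 E00 E00 E00 + ((1 - Complex.I) / 2) • P3 E10 E10 E10
/-- second vector, as the operator `|v⟩⟨000|` -/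
noncomputable def R2 : Op := P3 E00 E00 E10 + (-(1 + Complex.I) / 2) • P3 E10 E10 E00

lemma conjP3 (a b c : Matrix (Fin 2) (Fin 2) ℂ) : (P3 a b c)ᴴ = P3 aᴴ bᴴ cᴴ := by
  rw [P3, prodOp_conjTranspose, P3]
  congr 1
  funext i
  fin_cases i <;> rfl

lemma E00H : E00ᴴ = E00 := by
  ext i j; fin_cases i <;> fin_cases j <;> simp [E00, Matrix.conjTranspose_apply]
lemma E10H : E10ᴴ = E01 := by
  ext i j; fin_cases i <;> fin_cases j <;> simp [E10, E01, Matrix.conjTranspose_apply]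
lemma E00E00 : E00 * E00 = E00 := by
  ext i j; fin_cases i <;> fin_cases j <;> simp [E00, Matrix.mul_apply, Fin.sum_univ_two]
lemma E00E01 : E00 * E01 = E01 := by
  ext i j; fin_cases i <;> fin_cases j <;> simp [E00, E01, Matrix.mul_apply, Fin.sum_univ_two]
lemma E10E00 : E10 * E00 = E10 := by
  ext i j; fin_cases i <;> fin_cases j <;> simp [E00, E10, Matrix.mul_apply, Fin.sum_univ_two]
lemma E10E01 : E10 * E01 = E11 := by
  ext i j; fin_cases i <;> fin_cases j <;> simp [E10, E01, E11, Matrix.mul_apply, Fin.sum_univ_two]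

lemma c1 : star ((1 - Complex.I) / 2) = (1 + Complex.I) / 2 := by
  apply Complex.ext <;> simp
lemma c2 : star (-(1 + Complex.I) / 2) = -(1 - Complex.I) / 2 := by
  apply Complex.ext <;> simp
lemma c3 : (1 - Complex.I) / 2 * ((1 + Complex.I) / 2) = 1 / 2 := by
  apply Complex.ext <;> simp <;> norm_num
lemma c4 : -(1 + Complex.I) / 2 * (-(1 - Complex.I) / 2) = 1 / 2 := by
  apply Complex.ext <;> simp <;> norm_num

lemma R1R1 : R1 * R1ᴴ = P3 E00 E00 E00 + ((1 + Complex.I) / 2) • P3 E01 E01 E01 +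
    ((1 - Complex.I) / 2) • P3 E10 E10 E10 + (1 / 2 : ℂ) • P3 E11 E11 E11 := by
  rw [R1, Matrix.conjTranspose_add, Matrix.conjTranspose_smul, conjP3, conjP3, E00H, E10H, c1,
    add_mul, mul_add, mul_add, smul_mul_smul_comm, smul_mul_assoc, mul_smul_comm, P3_mul, P3_mul,
    P3_mul, P3_mul, E00E00, E00E01, E10E00, E10E01, c3]
  abel

lemma R2R2 : R2 * R2ᴴ = P3 E00 E00 E11 + (-(1 - Complex.I) / 2) • P3 E01 E01 E10 +
    (-(1 + Complex.I) / 2) • P3 E10 E10 E01 + (1 / 2 : ℂ) • P3 E11 E11 E00 := by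
  rw [R2, Matrix.conjTranspose_add, Matrix.conjTranspose_smul, conjP3, conjP3, E00H, E10H, c2,
    add_mul, mul_add, mul_add, smul_mul_smul_comm, smul_mul_assoc, mul_smul_comm, P3_mul, P3_mul,
    P3_mul, P3_mul, E00E00, E00E01, E10E00, E10E01, c4]
  abel

lemma trR1 : (R1 * R1ᴴ).trace = 3 / 2 ∧ (A * (R1 * R1ᴴ)).trace = 7 / 2 := by
  obtain ⟨hX0, hX1, hX2, hX3⟩ := trE pX
  obtain ⟨hY0, hY1, hY2, hY3⟩ := trE pY
  obtain ⟨hZ0, hZ1, hZ2, hZ3⟩ := trE pZ
  obtain ⟨h0, h1, h2, h3⟩ := trE'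
  rw [R1R1]
  simp only [mul_add, mul_smul_comm, Matrix.trace_add, Matrix.trace_smul, trA_P3, trace_P3,
    hX0, hX1, hX2, hX3, hY0, hY1, hY2, hY3, hZ0, hZ1, hZ2, hZ3, h0, h1, h2, h3]
  constructor
  · simp; norm_num
  · apply Complex.ext <;> simp [pX, pY, pZ] <;> norm_num

lemma trR2 : (R2 * R2ᴴ).trace = 3 / 2 ∧ (A * (R2 * R2ᴴ)).trace = -5 / 2 := by
  obtain ⟨hX0, hX1, hX2, hX3⟩ := trE pX
  obtain ⟨hY0, hY1, hY2, hY3⟩ := trE pY
  obtain ⟨hZ0, hZ1, hZ2, hZ3⟩ := trE pZ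
  obtain ⟨h0, h1, h2, h3⟩ := trE'
  rw [R2R2]
  simp only [mul_add, mul_smul_comm, Matrix.trace_add, Matrix.trace_smul, trA_P3, trace_P3,
    hX0, hX1, hX2, hX3, hY0, hY1, hY2, hY3, hZ0, hZ1, hZ2, hZ3, h0, h1, h2, h3]
  constructor
  · simp; norm_num
  · apply Complex.ext <;> simp [pX, pY, pZ] <;> norm_num

lemma state_of_R {R : Op} (h : (R * Rᴴ).trace = 3 / 2) : IsState ((2 / 3 : ℂ) • (R * Rᴴ)) := by
  constructor
  · refine (Matrix.posSemidef_self_mul_conjTranspose R).smul ?_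
    rw [Complex.le_def]
    norm_num
  · rw [Matrix.trace_smul, h]; norm_num

lemma W_herm {s : ℂ} (hs : s = 1 ∨ s = -1) : (1 - s • A : Op).IsHermitian := by
  unfold Matrix.IsHermitian
  rw [Matrix.conjTranspose_sub, Matrix.conjTranspose_one, Matrix.conjTranspose_smul, A_herm]
  rcases hs with rfl | rfl <;> simp

lemma ew1 : IsEW (1 - (1 : ℂ) • A : Op) := by
  refine ⟨W_herm (Or.inl rfl), ?_, ?_⟩
  · intro σ hσ
    rw [one_smul]
    exact sep_one_sub σ hσ
  · refine ⟨_, state_of_R trR1.1, ?_⟩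
    rw [one_smul, sub_mul, Matrix.trace_sub, one_mul, mul_smul_comm, Matrix.trace_smul,
      Matrix.trace_smul, trR1.1, trR1.2]
    simp
    norm_num

lemma ew2 : IsEW (1 - (-1 : ℂ) • A : Op) := by
  refine ⟨W_herm (Or.inr rfl), ?_, ?_⟩
  · intro σ hσ
    rw [neg_one_smul, sub_neg_eq_add]
    exact sep_one_add σ hσ
  · refine ⟨_, state_of_R trR2.1, ?_⟩
    rw [neg_one_smul, sub_neg_eq_add, add_mul, Matrix.trace_add, one_mul, mul_smul_comm,
      Matrix.trace_smul, Matrix.trace_smul, trR2.1, trR2.2]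
    simp
    norm_num

lemma not_lu : ¬ LocallyUnitarilyRelated (1 - (1 : ℂ) • A : Op) (1 - (-1 : ℂ) • A : Op) := by
  rintro ⟨U, hU, h⟩
  set L : Op := prodOp U with hL
  have hLL : Lᴴ * L = 1 := unitary_prod U hU
  have hLL' : L * Lᴴ = 1 := mul_eq_one_comm.mp hLL
  rw [neg_one_smul, sub_neg_eq_add, one_smul, mul_sub, sub_mul, mul_one, hLL'] at h
  have hA : L * A * Lᴴ = -A := by
    have := congrArg (fun M => 1 - M) h
    simp only [sub_sub_cancel] at this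
    rw [← this]; abel
  have h3 : L * (A * A * A) * Lᴴ = -(A * A * A) := by
    have e : L * (A * A * A) * Lᴴ = (L * A * Lᴴ) * (L * A * Lᴴ) * (L * A * Lᴴ) := by
      calc L * (A * A * A) * Lᴴ = L * A * 1 * A * 1 * A * Lᴴ := by
            simp only [mul_one, mul_assoc]
        _ = L * A * (Lᴴ * L) * A * (Lᴴ * L) * A * Lᴴ := by rw [hLL]
        _ = _ := by simp only [mul_assoc]
    rw [e, hA]
    simp
  have ht := congrArg Matrix.trace h3
  rw [Matrix.trace_mul_comm, ← mul_assoc, hLL, one_mul, Matrix.trace_neg, A_cube] at ht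
  norm_num at ht

/-- MP_472e54, Q1: there is a mirrored pair of optimal entanglement witnesses which are not
related by local unitaries. -/
theorem result : ∃ (n : ℕ) (d : Fin n → ℕ), 2 ≤ n ∧ (∀ i, 2 ≤ d i) ∧
    ∃ W M : Matrix (∀ i, Fin (d i)) (∀ i, Fin (d i)) ℂ,
      IsOptimalEW W ∧ IsOptimalEW M ∧ (∃ u : ℝ, W + M = u • (1 : Matrix _ _ ℂ)) ∧
      ¬ LocallyUnitarilyRelated W M := by
  refine ⟨3, D3, by norm_num, fun i => le_refl 2, 1 - (1 : ℂ) • A, 1 - (-1 : ℂ) • A,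
    opt_of_ew (Or.inl rfl) ew1, opt_of_ew (Or.inr rfl) ew2, ⟨2, ?_⟩, not_lu⟩
  rw [neg_one_smul, one_smul, sub_neg_eq_add, two_smul]
  abel

end example3

end Pool.Agent.Results.MP_472e54_mp.ThreeQubitPair
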